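import Mathlib

set_option autoImplicit false

/-!
# Manturov's group `G^2_4` contains a free group of rank two

The group has six generators `a = a₁₂`, `b = a₁₃`, `c = a₁₄`, `d = a₂₃`, `e = a₂₄`, `f = a₃₄`.
Killing `a` and identifying `b = c`, `d = e` gives the free product of a Klein four group
(generated by `b` and `d`) and a group of order two (generated by `f`).
We realise this quotient by permutations of a countable set and play ping-pong.
-/

namespace Pool.Agent.Results.MP_18aa7e_al.FreeSubgroup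

/-- The defining relations of `G^2_4`, on the letters
`a = 0`, `b = 1`, `c = 2`, `d = 3`, `e = 4`, `f = 5`; the relation `u = v` is recorded as the
element `u * v⁻¹` of the free group. -/
def relators : Set (FreeGroup (Fin 6)) :=
  let a : FreeGroup (Fin 6) := FreeGroup.of 0
  let b : FreeGroup (Fin 6) := FreeGroup.of 1
  let c : FreeGroup (Fin 6) := FreeGroup.of 2
  let d : FreeGroup (Fin 6) := FreeGroup.of 3
  let e : FreeGroup (Fin 6) := FreeGroup.of 4
  let f : FreeGroup (Fin 6) := FreeGroup.of 5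
  { a ^ 2, b ^ 2, c ^ 2, d ^ 2, e ^ 2, f ^ 2,
    (a * f) * (f * a)⁻¹, (b * e) * (e * b)⁻¹, (c * d) * (d * c)⁻¹,
    (a * b * d) * (d * b * a)⁻¹, (b * a * d) * (d * a * b)⁻¹, (a * d * b) * (b * d * a)⁻¹,
    (a * c * e) * (e * c * a)⁻¹, (c * a * e) * (e * a * c)⁻¹, (a * e * c) * (c * e * a)⁻¹,
    (b * c * f) * (f * c * b)⁻¹, (c * b * f) * (f * b * c)⁻¹, (b * f * c) * (c * f * b)⁻¹,
    (d * e * f) * (f * e * d)⁻¹, (e * d * f) * (f * d * e)⁻¹, (d * f * e) * (e * f * d)⁻¹ }

/-- The group `G^2_4`. -/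
abbrev G24 : Type := PresentedGroup relators

open Set

/-- Ping-pong for a free product of a group with at least three elements and a group with at
least two elements. -/
theorem pingpong {G α : Type} [Group G] [MulAction G α] (S : Set α) (hS : S.Nonempty)
    (a b₁ b₂ : G)
    (ha : ∀ s, s ∉ S → a • s ∈ S)
    (hb₁ : ∀ s ∈ S, b₁ • s ∉ S) (hb₂ : ∀ s ∈ S, b₂ • s ∉ S)
    (hb₁₂ : ∀ s ∈ S, (b₁⁻¹ * b₂) • s ∉ S) :
    Function.Injective (FreeGroup.lift ![a * (b₁ * a * b₁⁻¹), a * (b₂ * a * b₂⁻¹)]) := by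
  obtain ⟨b, hb0, hb1⟩ : ∃ b : Fin 2 → G, b 0 = b₁ ∧ b 1 = b₂ := ⟨![b₁, b₂], rfl, rfl⟩
  have hbS : ∀ i, ∀ s ∈ S, b i • s ∉ S := by
    intro i
    fin_cases i
    · rw [show b ((fun i => i) ⟨0, by norm_num⟩) = b₁ from hb0]; exact hb₁
    · rw [show b ((fun i => i) ⟨1, by norm_num⟩) = b₂ from hb1]; exact hb₂
  have hdis : ∀ i j, i ≠ j → ∀ s, (b i)⁻¹ • s ∈ S → (b j)⁻¹ • s ∈ S → False := by
    have key : ∀ s, b₁⁻¹ • s ∈ S → b₂⁻¹ • s ∈ S → False := by
      intro s h1 h2
      apply hb₁₂ _ h2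
      rw [mul_smul, smul_inv_smul]
      exact h1
    intro i j hij s h1 h2
    fin_cases i <;> fin_cases j
    · exact hij rfl
    · exact key s (by simpa [hb0] using h1) (by simpa [hb1] using h2)
    · exact key s (by simpa [hb0] using h2) (by simpa [hb1] using h1)
    · exact hij rfl
  have hout : ∀ i s, (b i)⁻¹ • s ∈ S → s ∉ S := by
    intro i s h1
    have := hbS i _ h1
    rwa [smul_inv_smul] at this
  let c : Fin 2 → G := fun i => a * (b i * a * (b i)⁻¹)
  have hc : ![a * (b₁ * a * b₁⁻¹), a * (b₂ * a * b₂⁻¹)] = c := by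
    funext i
    fin_cases i
    · simp [c, hb0]
    · simp [c, hb1]
  rw [hc]
  let X : Fin 2 → Set α := fun i => {p | (b i)⁻¹ • (a⁻¹ • p) ∈ S}
  let Y : Fin 2 → Set α := fun i => {p | (b i)⁻¹ • ((b i * a * (b i)⁻¹) • p) ∉ S}
  have hY1 : ∀ i p, p ∈ Y i → (b i)⁻¹ • p ∈ S := by
    intro i p hp
    have h1 : (b i)⁻¹ • ((b i * a * (b i)⁻¹) • p) ∉ S := hp
    rw [mul_smul, mul_smul, inv_smul_smul] at h1
    by_contra h2
    exact h1 (ha _ h2)
  have hX1 : ∀ i p, p ∈ X i → p ∈ S := by
    intro i p hp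
    have h1 : (b i)⁻¹ • (a⁻¹ • p) ∈ S := hp
    have h2 := ha _ (hout i _ h1)
    rwa [smul_inv_smul] at h2
  refine FreeGroup.injective_lift_of_ping_pong c X Y ?_ ?_ ?_ ?_ ?_ ?_
  · intro i
    obtain ⟨s, hs⟩ := hS
    refine ⟨a • (b i • s), ?_⟩
    show (b i)⁻¹ • (a⁻¹ • (a • (b i • s))) ∈ S
    rw [inv_smul_smul, inv_smul_smul]
    exact hs
  · intro i j hij
    rw [Function.onFun, Set.disjoint_left]
    intro p h1 h2
    exact hdis i j hij _ h1 h2
  · intro i j hij
    rw [Function.onFun, Set.disjoint_left]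
    intro p h1 h2
    exact hdis i j hij _ (hY1 i p h1) (hY1 j p h2)
  · intro i j
    rw [Set.disjoint_left]
    intro p h1 h2
    exact hout j p (hY1 j p h2) (hX1 i p h1)
  · rintro i _ ⟨p, hp, rfl⟩
    show (b i)⁻¹ • (a⁻¹ • (c i • p)) ∈ S
    have h1 : (b i)⁻¹ • ((b i * a * (b i)⁻¹) • p) ∈ S := by
      by_contra h2
      exact hp h2
    have h3 : a⁻¹ • (c i • p) = (b i * a * (b i)⁻¹) • p := by
      show a⁻¹ • ((a * (b i * a * (b i)⁻¹)) • p) = _
      rw [mul_smul, inv_smul_smul]
    rw [h3]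
    exact h1
  · rintro i _ ⟨p, hp, rfl⟩
    show (b i)⁻¹ • ((b i * a * (b i)⁻¹) • ((c⁻¹ i) • p)) ∉ S
    have h1 : (b i)⁻¹ • (a⁻¹ • p) ∉ S := hp
    have h3 : (b i * a * (b i)⁻¹) • ((c⁻¹ i) • p) = a⁻¹ • p := by
      have : c⁻¹ i = (b i * a * (b i)⁻¹)⁻¹ * a⁻¹ := by
        show (a * (b i * a * (b i)⁻¹))⁻¹ = _
        rw [mul_inv_rev]
      rw [this, mul_smul (b i * a * (b i)⁻¹)⁻¹, smul_inv_smul]
    rw [h3]
    exact h1

/-- The countable set on which we act. -/
abbrev A : Type := ℕ × Bool × Bool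

/-- The base part of `A`. -/
def S : Set A := {p | p.2 = (false, false)}

/-- first involution of the Klein four group -/
def β : Equiv.Perm A :=
  ⟨fun p => (p.1, !p.2.1, p.2.2), fun p => (p.1, !p.2.1, p.2.2), fun p => by simp, fun p => by simp⟩

/-- second involution of the Klein four group -/
def δ : Equiv.Perm A :=
  ⟨fun p => (p.1, p.2.1, !p.2.2), fun p => (p.1, p.2.1, !p.2.2), fun p => by simp, fun p => by simp⟩

/-- an enumeration of `A` -/
noncomputable def en : A ≃ ℕ :=
  haveI := Denumerable.ofEncodableOfInfinite A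
  Denumerable.eqv A

open Classical in
/-- the map underlying the involution that pushes the complement of `S` into `S` -/
noncomputable def φfun (p : A) : A :=
  if p ∉ S then (en p, false, false) else if en.symm p.1 ∉ S then en.symm p.1 else p

lemma mem_S (n : ℕ) : ((n, false, false) : A) ∈ S := rfl

lemma φ_of_not {p : A} (h : p ∉ S) : φfun p = (en p, false, false) := if_pos h

lemma φ_of {p : A} (h : p ∈ S) (h' : en.symm p.1 ∉ S) : φfun p = en.symm p.1 := by
  rw [φfun, if_neg (not_not.mpr h), if_pos h']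

lemma φ_of' {p : A} (h : p ∈ S) (h' : en.symm p.1 ∈ S) : φfun p = p := by
  rw [φfun, if_neg (not_not.mpr h), if_neg (not_not.mpr h')]

lemma φ_invol (p : A) : φfun (φfun p) = p := by
  by_cases h : p ∈ S
  · by_cases h' : en.symm p.1 ∈ S
    · rw [φ_of' h h', φ_of' h h']
    · rw [φ_of h h', φ_of_not h', Equiv.apply_symm_apply]
      have h2 : p.2 = (false, false) := h
      rw [← h2]
  · rw [φ_of_not h]
    have : en.symm ((en p, false, false) : A).1 = p := by simp
    rw [φ_of (mem_S _) (by rw [this]; exact h), this]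

/-- the involution that pushes the complement of `S` into `S` -/
noncomputable def φ : Equiv.Perm A := ⟨φfun, φfun, φ_invol, φ_invol⟩

lemma β_sq : β * β = 1 := by ext p <;> simp [β]
lemma δ_sq : δ * δ = 1 := by ext p <;> simp [δ]
lemma φ_sq : φ * φ = 1 := by
  apply Equiv.ext
  intro p
  exact φ_invol p
lemma βδ : β * δ = δ * β := by ext p <;> simp [β, δ]
lemma φββ : φ * β * β = φ := by rw [mul_assoc, β_sq, mul_one]
lemma φδδ : φ * δ * δ = φ := by rw [mul_assoc, δ_sq, mul_one]

/-- images of the generators -/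
noncomputable def im : Fin 6 → Equiv.Perm A := ![1, β, β, δ, δ, φ]

/-- The homomorphism from `G^2_4` to permutations of `A`. -/
noncomputable def Φ : G24 →* Equiv.Perm A :=
  PresentedGroup.toGroup (f := im) (by
    intro r hr
    have e0 : im 0 = 1 := rfl
    have e1 : im 1 = β := rfl
    have e2 : im 2 = β := rfl
    have e3 : im 3 = δ := rfl
    have e4 : im 4 = δ := rfl
    have e5 : im 5 = φ := rfl
    simp only [relators, Set.mem_insert_iff, Set.mem_singleton_iff] at hr
    rcases hr with h | h | h | h | h | h | h | h | h | h | h | h | h | h | h | h | h | h | h | h | h <;>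
    · rw [h]
      simp only [map_mul, map_inv, FreeGroup.lift_apply_of, e0, e1, e2, e3, e4, e5,
        mul_inv_eq_one, pow_two, one_mul, mul_one, β_sq, δ_sq, φ_sq, βδ, φββ, φδδ])

theorem main : Function.Injective (Φ.comp (FreeGroup.lift
    ![(PresentedGroup.of 5 : G24) * (PresentedGroup.of 1 * PresentedGroup.of 5 *
        (PresentedGroup.of 1)⁻¹),
      PresentedGroup.of 5 * (PresentedGroup.of 3 * PresentedGroup.of 5 *
        (PresentedGroup.of 3)⁻¹)])) := by
  have h := pingpong (G := Equiv.Perm A) (α := A) S ⟨(0, false, false), rfl⟩ φ β δ ?_ ?_ ?_ ?_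
  · convert h using 2
    apply FreeGroup.ext_hom
    intro i
    have h5 : Φ (PresentedGroup.of 5) = φ := PresentedGroup.toGroup.of _
    have h1 : Φ (PresentedGroup.of 1) = β := PresentedGroup.toGroup.of _
    have h3 : Φ (PresentedGroup.of 3) = δ := PresentedGroup.toGroup.of _
    fin_cases i
    · simp [h5, h1]
    · simp [h5, h3]
  · intro s hs
    show φfun s ∈ S
    rw [φ_of_not hs]
    exact mem_S _
  · intro s hs h
    have h1 : s.2 = (false, false) := hs
    have h2 : ((!s.2.1, s.2.2) : Bool × Bool) = (false, false) := h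
    rw [h1] at h2
    simp at h2
  · intro s hs h
    have h1 : s.2 = (false, false) := hs
    have h2 : ((s.2.1, !s.2.2) : Bool × Bool) = (false, false) := h
    rw [h1] at h2
    simp at h2
  · intro s hs h
    have h1 : s.2 = (false, false) := hs
    have h2 : ((!s.2.1, !s.2.2) : Bool × Bool) = (false, false) := h
    rw [h1] at h2
    simp at h2

/-- `G^2_4` contains a subgroup isomorphic to the free group of rank two. -/
theorem result : ∃ H : Subgroup G24, Nonempty (H ≃* FreeGroup (Fin 2)) := by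
  have h := main
  rw [MonoidHom.coe_comp] at h
  have h2 := h.of_comp
  exact ⟨_, ⟨(MonoidHom.ofInjective h2).symm⟩⟩

end Pool.Agent.Results.MP_18aa7e_al.FreeSubgroup
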